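import Pool.Agent.helper99.AR.PRa

/-!
# The process lemma (MP_962e14_co)
-/

namespace Pool.Agent.helper19.AR

theorem PR_add {α : Type} [DecidableEq α] (V Z : Finset α) (out : α → Finset α) (F' : Finset α)
    (hF : ∀ x ∈ F', x ∈ V ∧ x ∉ Z) (hcl : ∀ v ∈ F', ∃ w ∈ out v, w ∈ F' ∨ w ∈ Z)
    (d : ℕ) (p : ℕ → α) (hp : ∀ i < d, p i ∈ V ∧ p i ∉ Z ∧ p (i + 1) ∈ out (p i))
    (hend : p d ∈ F' ∨ p d ∈ Z) :
    ∃ F : Finset α, F' ⊆ F ∧ (∀ x ∈ F, x ∈ V ∧ x ∉ Z) ∧
      (∀ v ∈ F, ∃ w ∈ out v, w ∈ F ∨ w ∈ Z) ∧ (p 0 ∈ F ∨ p 0 ∈ Z) ∧ F.card ≤ F'.card + d := by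
  refine ⟨F' ∪ (Finset.range d).image p, Finset.subset_union_left, ?_, ?_, ?_, ?_⟩
  · intro x hx
    rw [Finset.mem_union, Finset.mem_image] at hx
    rcases hx with hx | ⟨i, hi, hx⟩
    · exact hF x hx
    · rw [Finset.mem_range] at hi
      rw [← hx]
      exact ⟨(hp i hi).1, (hp i hi).2.1⟩
  · intro v hv
    rw [Finset.mem_union, Finset.mem_image] at hv
    rcases hv with hv | ⟨i, hi, hv⟩
    · obtain ⟨w, hw, h⟩ := hcl v hv
      refine ⟨w, hw, ?_⟩
      rcases h with h | h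
      · exact Or.inl (Finset.mem_union_left _ h)
      · exact Or.inr h
    · rw [Finset.mem_range] at hi
      rw [← hv]
      refine ⟨p (i + 1), (hp i hi).2.2, ?_⟩
      by_cases h1 : i + 1 < d
      · exact Or.inl (Finset.mem_union_right _ (Finset.mem_image.2
          ⟨i + 1, Finset.mem_range.2 h1, rfl⟩))
      · have h2 : i + 1 = d := by omega
        rw [h2]
        rcases hend with h | h
        · exact Or.inl (Finset.mem_union_left _ h)
        · exact Or.inr h
  · by_cases h0 : d = 0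
    · subst h0
      rcases hend with h | h
      · exact Or.inl (Finset.mem_union_left _ h)
      · exact Or.inr h
    · exact Or.inl (Finset.mem_union_right _ (Finset.mem_image.2
        ⟨0, Finset.mem_range.2 (by omega), rfl⟩))
  · refine (Finset.card_union_le _ _).trans ?_
    have := Finset.card_image_le (s := Finset.range d) (f := p)
    rw [Finset.card_range] at this
    omega

theorem PR_self {α : Type} [DecidableEq α] (out : α → Finset α) (y : α) (i : ℕ) :
    y ∈ ball out y i := by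
  have := PRa_mono out y 0 i
  rw [Nat.zero_add] at this
  exact this (by simp [ball])

theorem PR_lt {α : Type} [DecidableEq α] (Q : Finset α) (d : ℕ) (p : ℕ → α)
    (hp : ∀ i < d, p i ∈ Q) (hinj : ∀ i < d, ∀ j < d, p i = p j → i = j) : d ≤ Q.card := by
  have h1 : (Finset.range d).card ≤ Q.card := by
    apply Finset.card_le_card_of_injOn p
    · intro i hi
      exact hp i (Finset.mem_range.1 hi)
    · intro i hi j hj h
      exact hinj i (Finset.mem_range.1 hi) j (Finset.mem_range.1 hj) h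
  rw [Finset.card_range] at h1
  exact h1

/-- the conclusion of the process lemma with the extra invariant -/
def PR_C {α : Type} [DecidableEq α] (V Z : Finset α) (out : α → Finset α) (X : Finset α)
    (K : ℕ) : Prop :=
  ∃ (F Y : Finset α) (d : α → ℕ) (Ec : α → Finset α),
      (∀ x ∈ F, x ∈ V ∧ x ∉ Z) ∧ (∀ x ∈ X, x ∈ F ∨ x ∈ Z) ∧
      (∀ v ∈ F, ∃ w ∈ out v, w ∈ F ∨ w ∈ Z) ∧
      Proc K V Z out Y d Ec ∧
      F.card ≤ ∑ y ∈ Y, d y + 2 * K * (X.filter fun x => x ∉ Z).card ∧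
      ∀ y ∈ Y, Ec y ⊆ X.biUnion (reach V Z out)

/-- first case: a token with a large exclusive region -/
theorem PR_B {α : Type} [DecidableEq α] (r : ℕ) (hr : 1 ≤ r) (V Z : Finset α)
    (out : α → Finset α) (rk : α → ℕ) (hD : Dag r V Z out rk) (K : ℕ) (hK : 1 ≤ K)
    (X : Finset α) (hX : X ⊆ V) (x : α) (hx : x ∈ X)
    (hxK : K ≤ (reach V Z out x \ (X.erase x).biUnion (reach V Z out)).card)
    (ih : ∀ X' : Finset α, X' ⊆ V →
      (X'.biUnion (reach V Z out)).card + (X'.filter fun x => x ∉ Z).card <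
        (X.biUnion (reach V Z out)).card + (X.filter fun x => x ∉ Z).card →
      PR_C V Z out X' K) : PR_C V Z out X K := by
  classical
  obtain ⟨hR1, hR2, hR3, hR4, hR5, hR6⟩ := RE r V Z out rk hD
  set R := reach V Z out with hR
  set Q := R x \ (X.erase x).biUnion R with hQdef
  have hxV : x ∈ V := hX hx
  have hQmem : ∀ w, w ∈ Q ↔ w ∈ R x ∧ ∀ x' ∈ X, x' ≠ x → w ∉ R x' := by
    intro w
    rw [hQdef, Finset.mem_sdiff, Finset.mem_biUnion]
    constructor
    · rintro ⟨h1, h2⟩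
      refine ⟨h1, fun x' hx' hne h => h2 ⟨x', Finset.mem_erase.2 ⟨hne, hx'⟩, h⟩⟩
    · rintro ⟨h1, h2⟩
      refine ⟨h1, ?_⟩
      rintro ⟨x', hx', h⟩
      exact h2 x' (Finset.mem_erase.1 hx').2 (Finset.mem_erase.1 hx').1 h
  have hQne : Q.Nonempty := Finset.card_pos.1 (by omega)
  obtain ⟨q, hq⟩ := hQne
  have hxZ : x ∉ Z := by
    intro h
    have h1 := ((hQmem q).1 hq).1
    rw [hR4 x h] at h1
    simp at h1
  have hxQ : x ∈ Q := by
    rw [hQmem]
    refine ⟨hR1 x hxV hxZ, ?_⟩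
    intro x' hx' hne h
    have h1 := ((hQmem q).1 hq)
    exact h1.2 x' hx' hne ((hR2 x' (hX hx') x h).2.2 h1.1)
  have hQV : ∀ z ∈ Q, z ∈ V ∧ z ∉ Z := by
    intro z hz
    have := hR2 x hxV z ((hQmem z).1 hz).1
    exact ⟨this.1, this.2.1⟩
  obtain ⟨d0, p, hd0, hp0, hps, hpd, hpi, hball⟩ := PRa r hr V Z out rk hD Q hQV x hxQ
  have hwout : p d0 ∈ out (p (d0 - 1)) := by
    have := (hps (d0 - 1) (by omega)).2
    have h1 : d0 - 1 + 1 = d0 := by omega
    rw [h1] at this
    exact this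
  have hpq := (hps (d0 - 1) (by omega)).1
  have hwV : p d0 ∈ V := hD.out_sub _ (hQV _ hpq).1 (hQV _ hpq).2 hwout
  have hRw : R (p d0) ⊆ R x ∧ ∀ z ∈ R (p d0), z ∉ Q := by
    by_cases hwZ : p d0 ∈ Z
    · rw [hR4 _ hwZ]
      simp
    · have h1 : p d0 ∈ R x := hR3 x hxV _ ((hQmem _).1 hpq).1 _ hwout hwZ
      refine ⟨(hR2 x hxV _ h1).2.2, ?_⟩
      have h2 : ∃ x' ∈ X, x' ≠ x ∧ p d0 ∈ R x' := by
        by_contra hno
        push Not at hno
        exact hpd ((hQmem _).2 ⟨h1, hno⟩)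
      obtain ⟨x', hx', hne, h3⟩ := h2
      intro z hz hzQ
      exact ((hQmem z).1 hzQ).2 x' hx' hne ((hR2 x' (hX hx') _ h3).2.2 hz)
  set X' := insert (p d0) (X.erase x) with hX'
  have hX'V : X' ⊆ V := by
    intro z hz
    rw [hX', Finset.mem_insert] at hz
    rcases hz with hz | hz
    · rw [hz]
      exact hwV
    · exact hX (Finset.mem_erase.1 hz).2
  have hU : X'.biUnion R ⊆ X.biUnion R \ Q := by
    intro z hz
    rw [Finset.mem_biUnion] at hz
    obtain ⟨x', hx', hz⟩ := hz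
    rw [hX', Finset.mem_insert] at hx'
    rw [Finset.mem_sdiff, Finset.mem_biUnion]
    rcases hx' with hx' | hx'
    · rw [hx'] at hz
      exact ⟨⟨x, hx, hRw.1 hz⟩, hRw.2 z hz⟩
    · have h1 := Finset.mem_erase.1 hx'
      exact ⟨⟨x', h1.2, hz⟩, fun h => ((hQmem z).1 h).2 x' h1.2 h1.1 hz⟩
  have hQU : Q ⊆ X.biUnion R := by
    intro z hz
    exact Finset.mem_biUnion.2 ⟨x, hx, ((hQmem z).1 hz).1⟩
  have hc1 : (X'.biUnion R).card + Q.card ≤ (X.biUnion R).card := by
    have h1 := Finset.card_le_card hU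
    have h2 := Finset.card_sdiff_add_card_eq_card hQU
    omega
  have hc2 : (X'.filter fun x => x ∉ Z).card ≤ (X.filter fun x => x ∉ Z).card := by
    have h1 : (X'.filter fun x => x ∉ Z) ⊆ insert (p d0) ((X.filter fun x => x ∉ Z).erase x) := by
      intro z hz
      rw [Finset.mem_filter, hX', Finset.mem_insert] at hz
      rw [Finset.mem_insert, Finset.mem_erase, Finset.mem_filter]
      rcases hz with ⟨hz | hz, hz2⟩
      · exact Or.inl hz
      · have := Finset.mem_erase.1 hz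
        exact Or.inr ⟨this.1, this.2, hz2⟩
    have h2 := Finset.card_le_card h1
    have h3 := Finset.card_insert_le (p d0) ((X.filter fun x => x ∉ Z).erase x)
    have h4 : x ∈ X.filter fun x => x ∉ Z := Finset.mem_filter.2 ⟨hx, hxZ⟩
    have h5 := Finset.card_erase_add_one h4
    omega
  have hQpos : 0 < Q.card := by omega
  obtain ⟨F', Y', d', Ec', hF1, hF2, hF3, hP, hF4, hF5⟩ := ih X' hX'V (by omega)
  have hwF : p d0 ∈ F' ∨ p d0 ∈ Z := hF2 _ (Finset.mem_insert_self _ _)
  obtain ⟨F, hG1, hG2, hG3, hG4, hG5⟩ := PR_add V Z out F' hF1 hF3 d0 p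
    (fun i hi => ⟨(hQV _ (hps i hi).1).1, (hQV _ (hps i hi).1).2, (hps i hi).2⟩) hwF
  have hEQ : ∀ y ∈ Y', Disjoint (Ec' y) Q := by
    intro y hy
    rw [Finset.disjoint_left]
    intro z hz hzQ
    exact (Finset.mem_sdiff.1 (hU (hF5 y hy hz))).2 hzQ
  have hxY : x ∉ Y' := by
    intro h
    have h1 : x ∈ Ec' x := hP.ball_sub x h (PR_self out x _)
    exact Finset.disjoint_left.1 (hEQ x h) h1 hxQ
  have hne : ∀ y ∈ Y', y ≠ x := fun y hy h => hxY (h ▸ hy)
  refine ⟨F, insert x Y', Function.update d' x d0, Function.update Ec' x Q, hG2, ?_, hG3, ?_, ?_, ?_⟩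
  · intro z hz
    by_cases hzx : z = x
    · rw [hzx, ← hp0]
      exact hG4
    · have h1 := hF2 z (Finset.mem_insert_of_mem (Finset.mem_erase.2 ⟨hzx, hz⟩))
      rcases h1 with h1 | h1
      · exact Or.inl (hG1 h1)
      · exact Or.inr h1
  · refine ⟨?_, ?_, ?_, ?_, ?_, ?_⟩
    · intro y hy
      rcases Finset.mem_insert.1 hy with hy | hy
      · rw [hy]
        exact ⟨hxV, hxZ⟩
      · exact hP.Y_sub y hy
    · intro y hy
      rcases Finset.mem_insert.1 hy with hy | hy
      · rw [hy, Function.update_self]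
        exact hd0
      · rw [Function.update_of_ne (hne y hy)]
        exact hP.d_pos y hy
    · intro y hy
      rcases Finset.mem_insert.1 hy with hy | hy
      · rw [hy, Function.update_self]
        exact hQV
      · rw [Function.update_of_ne (hne y hy)]
        exact hP.E_sub y hy
    · intro y hy
      rcases Finset.mem_insert.1 hy with hy | hy
      · rw [hy, Function.update_self]
        exact hxK
      · rw [Function.update_of_ne (hne y hy)]
        exact hP.E_card y hy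
    · intro y hy
      rcases Finset.mem_insert.1 hy with hy | hy
      · rw [hy, Function.update_self, Function.update_self]
        exact hball
      · rw [Function.update_of_ne (hne y hy), Function.update_of_ne (hne y hy)]
        exact hP.ball_sub y hy
    · intro y hy y' hy' hyy
      rcases Finset.mem_insert.1 hy with hy | hy
      · rcases Finset.mem_insert.1 hy' with hy' | hy'
        · exact absurd (hy.trans hy'.symm) hyy
        · rw [hy, Function.update_self, Function.update_of_ne (hne y' hy')]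
          exact (hEQ y' hy').symm
      · rcases Finset.mem_insert.1 hy' with hy' | hy'
        · rw [hy', Function.update_self, Function.update_of_ne (hne y hy)]
          exact hEQ y hy
        · rw [Function.update_of_ne (hne y hy), Function.update_of_ne (hne y' hy')]
          exact hP.disj y hy y' hy' hyy
  · rw [Finset.sum_insert hxY, Function.update_self]
    have h1 : ∑ y ∈ Y', Function.update d' x d0 y = ∑ y ∈ Y', d' y := by
      apply Finset.sum_congr rfl
      intro y hy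
      rw [Function.update_of_ne (hne y hy)]
    rw [h1]
    have h2 : 2 * K * (X'.filter fun x => x ∉ Z).card ≤ 2 * K * (X.filter fun x => x ∉ Z).card :=
      Nat.mul_le_mul_left _ hc2
    omega
  · intro y hy
    rcases Finset.mem_insert.1 hy with hy | hy
    · rw [hy, Function.update_self]
      exact hQU
    · rw [Function.update_of_ne (hne y hy)]
      intro z hz
      exact (Finset.mem_sdiff.1 (hU (hF5 y hy hz))).1

/-- second case: all exclusive regions are small, two tokens share a vertex -/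
theorem PR_Cc {α : Type} [DecidableEq α] (r : ℕ) (V Z : Finset α)
    (out : α → Finset α) (rk : α → ℕ) (hD : Dag r V Z out rk) (K : ℕ)
    (X : Finset α) (hX : X ⊆ V)
    (hsm : ∀ x ∈ X, (reach V Z out x \ (X.erase x).biUnion (reach V Z out)).card < K)
    (hsh : ∃ m, ∃ x ∈ X, ∃ x' ∈ X, x ≠ x' ∧ m ∈ reach V Z out x ∧ m ∈ reach V Z out x')
    (ih : ∀ X' : Finset α, X' ⊆ V →
      (X'.biUnion (reach V Z out)).card + (X'.filter fun x => x ∉ Z).card <
        (X.biUnion (reach V Z out)).card + (X.filter fun x => x ∉ Z).card →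
      PR_C V Z out X' K) : PR_C V Z out X K := by
  classical
  obtain ⟨hR1, hR2, hR3, hR4, hR5, hR6⟩ := RE r V Z out rk hD
  set R := reach V Z out with hR
  have hQmem : ∀ x w, w ∈ R x \ (X.erase x).biUnion R ↔
      w ∈ R x ∧ ∀ x' ∈ X, x' ≠ x → w ∉ R x' := by
    intro x w
    rw [Finset.mem_sdiff, Finset.mem_biUnion]
    constructor
    · rintro ⟨h1, h2⟩
      refine ⟨h1, fun x' hx' hne h => h2 ⟨x', Finset.mem_erase.2 ⟨hne, hx'⟩, h⟩⟩
    · rintro ⟨h1, h2⟩
      refine ⟨h1, ?_⟩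
      rintro ⟨x', hx', h⟩
      exact h2 x' (Finset.mem_erase.1 hx').2 (Finset.mem_erase.1 hx').1 h
  have hne : (V.filter fun m => ∃ x ∈ X, ∃ x' ∈ X, x ≠ x' ∧ m ∈ R x ∧ m ∈ R x').Nonempty := by
    obtain ⟨m, x, hx, x', hx', h1, h2, h3⟩ := hsh
    exact ⟨m, Finset.mem_filter.2 ⟨(hR2 x (hX hx) m h2).1, x, hx, x', hx', h1, h2, h3⟩⟩
  obtain ⟨m, hm, hmin⟩ := Finset.exists_min_image _ rk hne
  obtain ⟨hmV, x, hx, x', hx', hxx, hmx, hmx'⟩ := Finset.mem_filter.1 hm
  have hpath : ∀ x ∈ X, m ∈ R x → ∃ (d : ℕ) (p : ℕ → α), p 0 = x ∧ p d = m ∧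
      (∀ i < d, p i ∈ V ∧ p i ∉ Z ∧ p (i + 1) ∈ out (p i)) ∧ d ≤ K := by
    intro x hx hmx
    obtain ⟨d, p, h0, hd, hs, hi⟩ := hR6 x (hX hx) m hmx
    refine ⟨d, p, h0, hd, fun i hi => ⟨(hs i hi).1, (hs i hi).2.1, (hs i hi).2.2.1⟩, ?_⟩
    have h1 : d ≤ (R x \ (X.erase x).biUnion R).card := by
      apply PR_lt _ d p _ hi
      intro i hi
      rw [hQmem]
      obtain ⟨h1, h2, h3, h4, h5, h6⟩ := hs i hi
      refine ⟨h5, ?_⟩
      intro x'' hx'' hne h7
      have h8 := hmin (p i) (Finset.mem_filter.2 ⟨h1, x'', hx'', x, hx, hne, h7, h5⟩)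
      omega
    exact h1.trans (hsm x hx).le
  obtain ⟨d1, p1, h10, h1d, h1s, h1K⟩ := hpath x hx hmx
  obtain ⟨d2, p2, h20, h2d, h2s, h2K⟩ := hpath x' hx' hmx'
  have hxZ : x ∉ Z := by
    intro h
    rw [hR4 x h] at hmx
    simp at hmx
  have hxZ' : x' ∉ Z := by
    intro h
    rw [hR4 x' h] at hmx'
    simp at hmx'
  set X' := insert m ((X.erase x).erase x') with hX'
  have hX'V : X' ⊆ V := by
    intro z hz
    rw [hX', Finset.mem_insert] at hz
    rcases hz with hz | hz
    · rw [hz]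
      exact hmV
    · exact hX (Finset.mem_erase.1 (Finset.mem_erase.1 hz).2).2
  have hU : X'.biUnion R ⊆ X.biUnion R := by
    intro z hz
    rw [Finset.mem_biUnion] at hz
    obtain ⟨x'', hx'', hz⟩ := hz
    rw [hX', Finset.mem_insert] at hx''
    rw [Finset.mem_biUnion]
    rcases hx'' with hx'' | hx''
    · rw [hx''] at hz
      exact ⟨x, hx, (hR2 x (hX hx) m hmx).2.2 hz⟩
    · exact ⟨x'', (Finset.mem_erase.1 (Finset.mem_erase.1 hx'').2).2, hz⟩
  have hc2 : (X'.filter fun x => x ∉ Z).card + 1 ≤ (X.filter fun x => x ∉ Z).card := by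
    have h1 : (X'.filter fun x => x ∉ Z) ⊆
        insert m (((X.filter fun x => x ∉ Z).erase x).erase x') := by
      intro z hz
      rw [Finset.mem_filter, hX', Finset.mem_insert] at hz
      rw [Finset.mem_insert, Finset.mem_erase, Finset.mem_erase, Finset.mem_filter]
      rcases hz with ⟨hz | hz, hz2⟩
      · exact Or.inl hz
      · have h3 := Finset.mem_erase.1 hz
        have h4 := Finset.mem_erase.1 h3.2
        exact Or.inr ⟨h3.1, h4.1, h4.2, hz2⟩
    have h2 := Finset.card_le_card h1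
    have h3 := Finset.card_insert_le m (((X.filter fun x => x ∉ Z).erase x).erase x')
    have h4 : x ∈ X.filter fun x => x ∉ Z := Finset.mem_filter.2 ⟨hx, hxZ⟩
    have h5 := Finset.card_erase_add_one h4
    have h6 : x' ∈ (X.filter fun x => x ∉ Z).erase x :=
      Finset.mem_erase.2 ⟨hxx.symm, Finset.mem_filter.2 ⟨hx', hxZ'⟩⟩
    have h7 := Finset.card_erase_add_one h6
    omega
  have hcU := Finset.card_le_card hU
  obtain ⟨F', Y', d', Ec', hF1, hF2, hF3, hP, hF4, hF5⟩ := ih X' hX'V (by omega)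
  have hmF : m ∈ F' ∨ m ∈ Z := hF2 _ (Finset.mem_insert_self _ _)
  obtain ⟨F1, hG1, hG2, hG3, hG4, hG5⟩ := PR_add V Z out F' hF1 hF3 d1 p1 h1s (by rw [h1d]; exact hmF)
  have hmF1 : m ∈ F1 ∨ m ∈ Z := by
    rcases hmF with h | h
    · exact Or.inl (hG1 h)
    · exact Or.inr h
  obtain ⟨F, hH1, hH2, hH3, hH4, hH5⟩ := PR_add V Z out F1 hG2 hG3 d2 p2 h2s
    (by rw [h2d]; exact hmF1)
  refine ⟨F, Y', d', Ec', hH2, ?_, hH3, hP, ?_, ?_⟩
  · intro z hz
    by_cases hzx : z = x
    · rw [hzx, ← h10]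
      rcases hG4 with h | h
      · exact Or.inl (hH1 h)
      · exact Or.inr h
    · by_cases hzx' : z = x'
      · rw [hzx', ← h20]
        exact hH4
      · have h1 := hF2 z (Finset.mem_insert_of_mem
          (Finset.mem_erase.2 ⟨hzx', Finset.mem_erase.2 ⟨hzx, hz⟩⟩))
        rcases h1 with h1 | h1
        · exact Or.inl (hH1 (hG1 h1))
        · exact Or.inr h1
  · have h2 : 2 * K * ((X'.filter fun x => x ∉ Z).card + 1) ≤
        2 * K * (X.filter fun x => x ∉ Z).card := Nat.mul_le_mul_left _ hc2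
    have h3 : 2 * K * ((X'.filter fun x => x ∉ Z).card + 1) =
        2 * K * (X'.filter fun x => x ∉ Z).card + 2 * K := by ring
    omega
  · intro y hy
    exact (hF5 y hy).trans hU

/-- third case: no shared vertices, all regions are small -/
theorem PR_D {α : Type} [DecidableEq α] (r : ℕ) (hr : 1 ≤ r) (V Z : Finset α)
    (out : α → Finset α) (rk : α → ℕ) (hD : Dag r V Z out rk) (K : ℕ)
    (X : Finset α) (hX : X ⊆ V)
    (hsm : ∀ x ∈ X, (reach V Z out x \ (X.erase x).biUnion (reach V Z out)).card < K)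
    (hsh : ¬ ∃ m, ∃ x ∈ X, ∃ x' ∈ X, x ≠ x' ∧ m ∈ reach V Z out x ∧ m ∈ reach V Z out x')
    (x : α) (hx : x ∈ X) (hxZ : x ∉ Z)
    (ih : ∀ X' : Finset α, X' ⊆ V →
      (X'.biUnion (reach V Z out)).card + (X'.filter fun x => x ∉ Z).card <
        (X.biUnion (reach V Z out)).card + (X.filter fun x => x ∉ Z).card →
      PR_C V Z out X' K) : PR_C V Z out X K := by
  classical
  obtain ⟨hR1, hR2, hR3, hR4, hR5, hR6⟩ := RE r V Z out rk hD
  set R := reach V Z out with hR
  have hxV : x ∈ V := hX hx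
  have hQeq : R x ⊆ R x \ (X.erase x).biUnion R := by
    intro w hw
    rw [Finset.mem_sdiff, Finset.mem_biUnion]
    refine ⟨hw, ?_⟩
    rintro ⟨x', hx', h⟩
    exact hsh ⟨w, x, hx, x', (Finset.mem_erase.1 hx').2, (Finset.mem_erase.1 hx').1.symm, hw, h⟩
  have hQV : ∀ z ∈ R x, z ∈ V ∧ z ∉ Z := by
    intro z hz
    have := hR2 x hxV z hz
    exact ⟨this.1, this.2.1⟩
  obtain ⟨d0, p, hd0, hp0, hps, hpd, hpi, hball⟩ :=
    PRa r hr V Z out rk hD (R x) hQV x (hR1 x hxV hxZ)
  have hwout : p d0 ∈ out (p (d0 - 1)) := by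
    have := (hps (d0 - 1) (by omega)).2
    have h1 : d0 - 1 + 1 = d0 := by omega
    rw [h1] at this
    exact this
  have hpq := (hps (d0 - 1) (by omega)).1
  have hwV : p d0 ∈ V := hD.out_sub _ (hQV _ hpq).1 (hQV _ hpq).2 hwout
  have hwZ : p d0 ∈ Z := by
    by_contra h
    exact hpd (hR3 x hxV _ hpq _ hwout h)
  have hd0K : d0 ≤ K := by
    have h1 := PR_lt (R x) d0 p (fun i hi => (hps i hi).1) hpi
    have h2 := Finset.card_le_card hQeq
    have h3 := hsm x hx
    omega
  set X' := insert (p d0) (X.erase x) with hX'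
  have hX'V : X' ⊆ V := by
    intro z hz
    rw [hX', Finset.mem_insert] at hz
    rcases hz with hz | hz
    · rw [hz]
      exact hwV
    · exact hX (Finset.mem_erase.1 hz).2
  have hU : X'.biUnion R ⊆ X.biUnion R := by
    intro z hz
    rw [Finset.mem_biUnion] at hz
    obtain ⟨x', hx', hz⟩ := hz
    rw [hX', Finset.mem_insert] at hx'
    rw [Finset.mem_biUnion]
    rcases hx' with hx' | hx'
    · rw [hx', hR4 _ hwZ] at hz
      simp at hz
    · exact ⟨x', (Finset.mem_erase.1 hx').2, hz⟩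
  have hc2 : (X'.filter fun x => x ∉ Z).card + 1 ≤ (X.filter fun x => x ∉ Z).card := by
    have h1 : (X'.filter fun x => x ∉ Z) ⊆ (X.filter fun x => x ∉ Z).erase x := by
      intro z hz
      rw [Finset.mem_filter, hX', Finset.mem_insert] at hz
      rw [Finset.mem_erase, Finset.mem_filter]
      rcases hz with ⟨hz | hz, hz2⟩
      · rw [hz] at hz2
        exact absurd hwZ hz2
      · have := Finset.mem_erase.1 hz
        exact ⟨this.1, this.2, hz2⟩
    have h2 := Finset.card_le_card h1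
    have h4 : x ∈ X.filter fun x => x ∉ Z := Finset.mem_filter.2 ⟨hx, hxZ⟩
    have h5 := Finset.card_erase_add_one h4
    omega
  have hcU := Finset.card_le_card hU
  obtain ⟨F', Y', d', Ec', hF1, hF2, hF3, hP, hF4, hF5⟩ := ih X' hX'V (by omega)
  obtain ⟨F, hG1, hG2, hG3, hG4, hG5⟩ := PR_add V Z out F' hF1 hF3 d0 p
    (fun i hi => ⟨(hQV _ (hps i hi).1).1, (hQV _ (hps i hi).1).2, (hps i hi).2⟩) (Or.inr hwZ)
  refine ⟨F, Y', d', Ec', hG2, ?_, hG3, hP, ?_, ?_⟩
  · intro z hz
    by_cases hzx : z = x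
    · rw [hzx, ← hp0]
      exact hG4
    · have h1 := hF2 z (Finset.mem_insert_of_mem (Finset.mem_erase.2 ⟨hzx, hz⟩))
      rcases h1 with h1 | h1
      · exact Or.inl (hG1 h1)
      · exact Or.inr h1
  · have h2 : 2 * K * ((X'.filter fun x => x ∉ Z).card + 1) ≤
        2 * K * (X.filter fun x => x ∉ Z).card := Nat.mul_le_mul_left _ hc2
    have h3 : 2 * K * ((X'.filter fun x => x ∉ Z).card + 1) =
        2 * K * (X'.filter fun x => x ∉ Z).card + 2 * K := by ring
    omega
  · intro y hy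
    exact (hF5 y hy).trans hU

theorem PR_main {α : Type} [DecidableEq α] (r : ℕ) (hr : 1 ≤ r) (V Z : Finset α)
    (out : α → Finset α) (rk : α → ℕ) (hD : Dag r V Z out rk) (K : ℕ) (hK : 1 ≤ K) :
    ∀ n : ℕ, ∀ X : Finset α, X ⊆ V →
      (X.biUnion (reach V Z out)).card + (X.filter fun x => x ∉ Z).card ≤ n →
      PR_C V Z out X K := by
  intro n
  induction n using Nat.strong_induction_on with
  | _ n ihn =>
    intro X hX hn
    have ih : ∀ X' : Finset α, X' ⊆ V →
        (X'.biUnion (reach V Z out)).card + (X'.filter fun x => x ∉ Z).card <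
          (X.biUnion (reach V Z out)).card + (X.filter fun x => x ∉ Z).card →
        PR_C V Z out X' K := by
      intro X' hX' hlt
      exact ihn _ (lt_of_lt_of_le hlt hn) X' hX' (le_refl _)
    by_cases h1 : ∃ x ∈ X, K ≤ (reach V Z out x \ (X.erase x).biUnion (reach V Z out)).card
    · obtain ⟨x, hx, h⟩ := h1
      exact PR_B r hr V Z out rk hD K hK X hX x hx h ih
    · push Not at h1
      by_cases h2 : ∃ m, ∃ x ∈ X, ∃ x' ∈ X, x ≠ x' ∧ m ∈ reach V Z out x ∧ m ∈ reach V Z out x'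
      · exact PR_Cc r V Z out rk hD K X hX h1 h2 ih
      · by_cases h3 : ∃ x ∈ X, x ∉ Z
        · obtain ⟨x, hx, hxZ⟩ := h3
          exact PR_D r hr V Z out rk hD K X hX h1 h2 x hx hxZ ih
        · push Not at h3
          refine ⟨∅, ∅, fun _ => 0, fun _ => ∅, by simp, fun x hx => Or.inr (h3 x hx), by simp,
            ⟨by simp, by simp, by simp, by simp, by simp, by simp⟩, by simp, by simp⟩

/-- module PR: the process lemma -/
theorem PR {α : Type} [DecidableEq α] (r : ℕ) (hr : 1 ≤ r) (V Z : Finset α)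
    (out : α → Finset α) (rk : α → ℕ) (hD : Dag r V Z out rk) (X : Finset α) (hX : X ⊆ V)
    (K : ℕ) (hK : 1 ≤ K) :
    ∃ (F Y : Finset α) (d : α → ℕ) (Ec : α → Finset α),
      (∀ x ∈ F, x ∈ V ∧ x ∉ Z) ∧ (∀ x ∈ X, x ∈ F ∨ x ∈ Z) ∧
      (∀ v ∈ F, ∃ w ∈ out v, w ∈ F ∨ w ∈ Z) ∧
      Proc K V Z out Y d Ec ∧
      F.card ≤ ∑ y ∈ Y, d y + 2 * K * (X.filter fun x => x ∉ Z).card := by
  obtain ⟨F, Y, d, Ec, h1, h2, h3, h4, h5, _⟩ :=
    PR_main r hr V Z out rk hD K hK _ X hX (le_refl _)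
  exact ⟨F, Y, d, Ec, h1, h2, h3, h4, h5⟩

end Pool.Agent.helper19.AR
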