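import Pool.Agent.helper99.AR.RE

/-!
# The first exit from a set of non-sinks (MP_962e14_co)
-/

namespace Pool.Agent.helper19.AR

theorem PRa_mono {α : Type} [DecidableEq α] (out : α → Finset α) (y : α) (i : ℕ) :
    ∀ k, ball out y i ⊆ ball out y (i + k) := by
  intro k
  induction k with
  | zero => exact Finset.Subset.refl _
  | succ k ih => exact ih.trans Finset.subset_union_left

theorem PRa_path {α : Type} [DecidableEq α] (out : α → Finset α) (y : α) :
    ∀ i, ∀ w ∈ ball out y i, ∃ e ≤ i, ∃ p : ℕ → α, p 0 = y ∧ p e = w ∧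
      (∀ j < e, p (j + 1) ∈ out (p j)) ∧ ∀ j ≤ e, p j ∈ ball out y j := by
  intro i
  induction i with
  | zero =>
    intro w hw
    have hw1 : w = y := by simpa [ball] using hw
    refine ⟨0, le_refl 0, fun _ => y, rfl, hw1.symm, fun j hj => absurd hj (Nat.not_lt_zero j), ?_⟩
    intro j hj
    have : j = 0 := by omega
    subst this
    simp [ball]
  | succ i ih =>
    intro w hw
    rw [ball, Finset.mem_union] at hw
    rcases hw with hw | hw
    · obtain ⟨e, he, p, h⟩ := ih w hw
      exact ⟨e, by omega, p, h⟩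
    · rw [Finset.mem_biUnion] at hw
      obtain ⟨v, hv, hw⟩ := hw
      obtain ⟨e, he, p, h0, h1, h2, h3⟩ := ih v hv
      refine ⟨e + 1, by omega, fun j => if j ≤ e then p j else w, ?_, ?_, ?_, ?_⟩
      · simp [h0]
      · simp
      · intro j hj
        by_cases hj1 : j < e
        · have h4 : j ≤ e := hj1.le
          have h5 : j + 1 ≤ e := hj1
          simp only [h4, h5, if_true]
          exact h2 j hj1
        · have h4 : j = e := by omega
          subst h4
          simp only [le_refl, if_true, Nat.not_succ_le_self, if_false]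
          rw [h1]
          exact hw
      · intro j hj
        by_cases hj1 : j ≤ e
        · simp only [hj1, if_true]
          exact h3 j hj1
        · have h4 : j = e + 1 := by omega
          subst h4
          simp only [Nat.not_succ_le_self, if_false]
          rw [ball, Finset.mem_union, Finset.mem_biUnion]
          right
          refine ⟨v, ?_, hw⟩
          have := h3 e (le_refl e)
          rw [h1] at this
          exact this

/-- module PRa: the first exit from a set `Q` of non-sinks -/
theorem PRa {α : Type} [DecidableEq α] (r : ℕ) (hr : 1 ≤ r) (V Z : Finset α)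
    (out : α → Finset α) (rk : α → ℕ) (hD : Dag r V Z out rk) (Q : Finset α)
    (hQ : ∀ x ∈ Q, x ∈ V ∧ x ∉ Z) (y : α) (hy : y ∈ Q) :
    ∃ (d : ℕ) (p : ℕ → α), 1 ≤ d ∧ p 0 = y ∧ (∀ i < d, p i ∈ Q ∧ p (i + 1) ∈ out (p i)) ∧
      p d ∉ Q ∧ (∀ i < d, ∀ j < d, p i = p j → i = j) ∧ ball out y (d - 1) ⊆ Q := by
  classical
  have hex : ∃ i, ¬ ball out y i ⊆ Q := by
    by_contra hno
    push Not at hno
    have hne : (Q.filter fun v => ∃ i, v ∈ ball out y i).Nonempty :=
      ⟨y, Finset.mem_filter.2 ⟨hy, 0, by simp [ball]⟩⟩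
    obtain ⟨v, hv, hmax⟩ := Finset.exists_max_image _ rk hne
    obtain ⟨hvQ, i, hvi⟩ := Finset.mem_filter.1 hv
    obtain ⟨hvV, hvZ⟩ := hQ v hvQ
    have hc := hD.out_card v hvV hvZ
    have hpos : 0 < (out v).card := by omega
    obtain ⟨w, hw⟩ := Finset.card_pos.1 hpos
    have hwi : w ∈ ball out y (i + 1) := by
      rw [ball, Finset.mem_union, Finset.mem_biUnion]
      exact Or.inr ⟨v, hvi, hw⟩
    have h1 := hmax w (Finset.mem_filter.2 ⟨hno (i + 1) hwi, i + 1, hwi⟩)
    have h2 := hD.rk_lt v hvV hvZ w hw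
    omega
  set d := Nat.find hex with hd
  have hd1 : ¬ ball out y d ⊆ Q := Nat.find_spec hex
  have hmin : ∀ i < d, ball out y i ⊆ Q := by
    intro i hi
    by_contra h
    exact Nat.find_min hex hi h
  have hdpos : 1 ≤ d := by
    by_contra h
    have h0 : d = 0 := by omega
    apply hd1
    rw [h0]
    intro z hz
    have : z = y := by simpa [ball] using hz
    rw [this]
    exact hy
  obtain ⟨w, hwd, hwQ⟩ := Finset.not_subset.1 hd1
  obtain ⟨e, he, p, h0, h1, h2, h3⟩ := PRa_path out y d w hwd
  have hed : e = d := by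
    by_contra hne
    have h4 : e < d := lt_of_le_of_ne he hne
    apply hwQ
    have h5 := h3 e (le_refl e)
    rw [h1] at h5
    exact hmin e h4 h5
  rw [hed] at h1 h2 h3
  have hs : ∀ i < d, p i ∈ Q := fun i hi => hmin i hi (h3 i hi.le)
  refine ⟨d, p, hdpos, h0, fun i hi => ⟨hs i hi, h2 i hi⟩, ?_, ?_, ?_⟩
  · rw [h1]
    exact hwQ
  · apply RE_inj hD
    intro i hi
    exact ⟨(hQ _ (hs i hi)).1, (hQ _ (hs i hi)).2, h2 i hi⟩
  · exact hmin (d - 1) (by omega)

end Pool.Agent.helper19.AR
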