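import Pool.Agent.helper19.AR.Defs2

/-!
# Properties of `reach` (MP_962e14_co)
-/

namespace Pool.Agent.helper19.AR

theorem RE_mem {α : Type} {V Z : Finset α} {out : α → Finset α} {x w : α} :
    w ∈ reach V Z out x ↔ w ∈ V ∧ w ∉ Z ∧ Relation.ReflTransGen (Stp V Z out) x w := by
  classical
  unfold reach
  rw [Finset.mem_filter]

theorem RE_step {α : Type} {r : ℕ} {V Z : Finset α} {out : α → Finset α}
    {rk : α → ℕ} (hD : Dag r V Z out rk) {a b : α} (h : Stp V Z out a b) : b ∈ V ∧ rk a < rk b :=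
  ⟨hD.out_sub a h.1 h.2.1 h.2.2, hD.rk_lt a h.1 h.2.1 b h.2.2⟩

theorem RE_rk {α : Type} {r : ℕ} {V Z : Finset α} {out : α → Finset α}
    {rk : α → ℕ} (hD : Dag r V Z out rk) {a b : α}
    (h : Relation.ReflTransGen (Stp V Z out) a b) : rk a ≤ rk b := by
  induction h with
  | refl => exact le_refl _
  | tail _ hc ih => exact ih.trans (RE_step hD hc).2.le

theorem RE_path {α : Type} {R : α → α → Prop} {x w : α} (h : Relation.ReflTransGen R x w) :
    ∃ (d : ℕ) (p : ℕ → α), p 0 = x ∧ p d = w ∧ ∀ i < d, R (p i) (p (i + 1)) := by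
  induction h with
  | refl => exact ⟨0, fun _ => x, rfl, rfl, fun i hi => absurd hi (Nat.not_lt_zero i)⟩
  | @tail b c hb hc ih =>
    obtain ⟨d, p, h0, hd, hs⟩ := ih
    refine ⟨d + 1, fun i => if i ≤ d then p i else c, ?_, ?_, ?_⟩
    · simp [h0]
    · simp
    · intro i hi
      by_cases h1 : i < d
      · have h2 : i ≤ d := h1.le
        have h3 : i + 1 ≤ d := h1
        simp only [h2, h3, if_true]
        exact hs i h1
      · have h2 : i = d := by omega
        subst h2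
        simp only [le_refl, if_true, Nat.not_succ_le_self, if_false]
        rw [hd]
        exact hc

theorem RE_sub {α : Type} {R : α → α → Prop} {d : ℕ} {p : ℕ → α}
    (h : ∀ i < d, R (p i) (p (i + 1))) (i : ℕ) : ∀ k, i + k ≤ d →
      Relation.ReflTransGen R (p i) (p (i + k)) := by
  intro k
  induction k with
  | zero => intro _; exact Relation.ReflTransGen.refl
  | succ k ih =>
    intro hk
    exact (ih (by omega)).tail (h (i + k) (by omega))

theorem RE_rkp {α : Type} {r : ℕ} {V Z : Finset α} {out : α → Finset α}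
    {rk : α → ℕ} (hD : Dag r V Z out rk) {d : ℕ} {p : ℕ → α}
    (h : ∀ i < d, Stp V Z out (p i) (p (i + 1))) (i j : ℕ) (hij : i < j) (hj : j ≤ d) :
    rk (p i) < rk (p j) := by
  have h1 : rk (p i) < rk (p (i + 1)) := (RE_step hD (h i (by omega))).2
  have h2 := RE_rk hD (RE_sub h (i + 1) (j - (i + 1)) (by omega))
  have h3 : i + 1 + (j - (i + 1)) = j := by omega
  rw [h3] at h2
  omega

theorem RE_inj {α : Type} {r : ℕ} {V Z : Finset α} {out : α → Finset α}
    {rk : α → ℕ} (hD : Dag r V Z out rk) {d : ℕ} {p : ℕ → α}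
    (h : ∀ i < d, Stp V Z out (p i) (p (i + 1))) :
    ∀ i < d, ∀ j < d, p i = p j → i = j := by
  intro i hi j hj he
  rcases lt_trichotomy i j with h1 | h1 | h1
  · have := RE_rkp hD h i j h1 hj.le
    rw [he] at this
    exact absurd this (lt_irrefl _)
  · exact h1
  · have := RE_rkp hD h j i h1 hi.le
    rw [he] at this
    exact absurd this (lt_irrefl _)

/-- module RE: properties of `reach` -/
theorem RE {α : Type} [DecidableEq α] (r : ℕ) (V Z : Finset α) (out : α → Finset α)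
    (rk : α → ℕ) (hD : Dag r V Z out rk) :
    (∀ x ∈ V, x ∉ Z → x ∈ reach V Z out x) ∧
    (∀ x ∈ V, ∀ w ∈ reach V Z out x, w ∈ V ∧ w ∉ Z ∧ reach V Z out w ⊆ reach V Z out x) ∧
    (∀ x ∈ V, ∀ w ∈ reach V Z out x, ∀ z ∈ out w, z ∉ Z → z ∈ reach V Z out x) ∧
    (∀ x ∈ Z, reach V Z out x = ∅) ∧
    (∀ x ∈ V, ∀ w ∈ reach V Z out x, rk x ≤ rk w) ∧
    (∀ x ∈ V, ∀ w ∈ reach V Z out x, ∃ (d : ℕ) (p : ℕ → α), p 0 = x ∧ p d = w ∧
      (∀ i < d, p i ∈ V ∧ p i ∉ Z ∧ p (i + 1) ∈ out (p i) ∧ rk (p i) < rk w ∧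
        p i ∈ reach V Z out x ∧ w ∈ reach V Z out (p i)) ∧
      (∀ i < d, ∀ j < d, p i = p j → i = j)) := by
  refine ⟨?_, ?_, ?_, ?_, ?_, ?_⟩
  · intro x hx hxZ
    exact RE_mem.2 ⟨hx, hxZ, Relation.ReflTransGen.refl⟩
  · intro x hx w hw
    obtain ⟨h1, h2, h3⟩ := RE_mem.1 hw
    refine ⟨h1, h2, ?_⟩
    intro z hz
    obtain ⟨h4, h5, h6⟩ := RE_mem.1 hz
    exact RE_mem.2 ⟨h4, h5, h3.trans h6⟩
  · intro x hx w hw z hz hzZ
    obtain ⟨h1, h2, h3⟩ := RE_mem.1 hw
    exact RE_mem.2 ⟨hD.out_sub w h1 h2 hz, hzZ, h3.tail ⟨h1, h2, hz⟩⟩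
  · intro x hx
    rw [Finset.eq_empty_iff_forall_notMem]
    intro w hw
    obtain ⟨h1, h2, h3⟩ := RE_mem.1 hw
    rcases Relation.ReflTransGen.cases_head h3 with h4 | ⟨b, h4, h5⟩
    · rw [h4] at hx
      exact h2 hx
    · exact h4.2.1 hx
  · intro x hx w hw
    exact RE_rk hD (RE_mem.1 hw).2.2
  · intro x hx w hw
    obtain ⟨h1, h2, h3⟩ := RE_mem.1 hw
    obtain ⟨d, p, h0, hd, hs⟩ := RE_path h3
    refine ⟨d, p, h0, hd, ?_, RE_inj hD hs⟩
    intro i hi
    have hi1 := hs i hi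
    refine ⟨hi1.1, hi1.2.1, hi1.2.2, ?_, ?_, ?_⟩
    · have := RE_rkp hD hs i d hi (le_refl d)
      rw [hd] at this
      exact this
    · have := RE_sub hs 0 i (by omega)
      rw [h0, Nat.zero_add] at this
      exact RE_mem.2 ⟨hi1.1, hi1.2.1, this⟩
    · have := RE_sub hs i (d - i) (by omega)
      have h5 : i + (d - i) = d := by omega
      rw [h5, hd] at this
      exact RE_mem.2 ⟨h1, h2, this⟩

end Pool.Agent.helper19.AR
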